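import Pool.Agent.helper12.DD.Spec

set_option autoImplicit false

open Pool.Agent.helper49.Blk

namespace Pool.Agent.DD

theorem CJC_map {G : Type} [Group G] (P : Subgroup G) (g h : G) :
    P.map (MulAut.conj g).toMonoidHom = P.map (MulAut.conj h).toMonoidHom ↔
      g⁻¹ * h ∈ Subgroup.normalizer (P : Set G) := by
  have hmem : ∀ g x : G, x ∈ P.map (MulAut.conj g).toMonoidHom ↔ g⁻¹ * x * g ∈ P := by
    intro g x
    constructor
    · rintro ⟨y, hy, rfl⟩
      have h1 : g⁻¹ * ((MulAut.conj g).toMonoidHom y) * g = y := by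
        show g⁻¹ * (g * y * g⁻¹) * g = y
        group
      rw [h1]
      exact hy
    · intro hx
      refine ⟨g⁻¹ * x * g, hx, ?_⟩
      show g * (g⁻¹ * x * g) * g⁻¹ = x
      group
  rw [Subgroup.mem_normalizer_iff]
  constructor
  · intro e y
    have h1 := (hmem h (h * y * h⁻¹)).symm
    rw [← e, hmem] at h1
    have h2 : h⁻¹ * (h * y * h⁻¹) * h = y := by group
    have h3 : g⁻¹ * (h * y * h⁻¹) * g = g⁻¹ * h * y * (g⁻¹ * h)⁻¹ := by group
    rw [h2, h3] at h1
    exact h1
  · intro e
    ext x
    rw [hmem, hmem]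
    have h1 := e (h⁻¹ * x * h)
    have h2 : g⁻¹ * h * (h⁻¹ * x * h) * (g⁻¹ * h)⁻¹ = g⁻¹ * x * g := by group
    rw [h2] at h1
    exact h1.symm

theorem CJC : CJC_stmt := by
  intro G _ _ C
  set f : G → List (Subgroup G) := fun g => C.map fun P => P.map (MulAut.conj g).toMonoidHom with hf
  have hfe : ∀ g h, f g = f h ↔ g⁻¹ * h ∈ NC C := by
    intro g h
    simp only [hf, NC, List.map_inj_left, Subgroup.mem_iInf]
    exact forall₂_congr fun P _ => CJC_map P g h
  have hset : {C' : List (Subgroup G) | Conj C C'} = Set.range f := by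
    ext C'
    constructor
    · rintro ⟨g, rfl⟩
      exact ⟨g, rfl⟩
    · rintro ⟨g, rfl⟩
      exact ⟨g, rfl⟩
  have hcard : Nat.card (G ⧸ NC C) = (Set.range f).ncard := by
    rw [← Nat.card_coe_set_eq]
    refine Nat.card_congr (Equiv.ofBijective (fun q => Quotient.liftOn' q
      (fun g => (⟨f g, g, rfl⟩ : Set.range f)) ?_) ⟨?_, ?_⟩)
    · intro g h hgh
      rw [QuotientGroup.leftRel_apply] at hgh
      exact Subtype.ext ((hfe g h).2 hgh)
    · intro q q'
      induction q using QuotientGroup.induction_on with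
      | H g =>
        induction q' using QuotientGroup.induction_on with
        | H h =>
          intro e
          exact QuotientGroup.eq.2 ((hfe g h).1 (congrArg Subtype.val e))
    · rintro ⟨_, g, rfl⟩
      exact ⟨(g : G ⧸ NC C), rfl⟩
  rw [hset, ← hcard, mul_comm]
  exact Subgroup.card_mul_index (NC C)

end Pool.Agent.DD
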